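import Pool.Agent.Lib.MP_18d288_gt.Sq

namespace Pool.Agent.Results.MP_18d288_gt.NotSymmetric

open Pool.Agent.Sing Pool.Agent.Lib.MP_18d288_gt

theorem result : (∃ (τ : Ch ℤ T6 6) (x : Fin 6 → Co ℤ T6 1), IsGen τ ∧ IsDual x) ∧
    ∀ (τ : Ch ℤ T6 6) (x : Fin 6 → Co ℤ T6 1), IsGen τ → IsDual x →
      IsCyc (alpha x τ) ∧ ¬ Hlg (alpha x τ) 0 ∧
        ∃ σ χ : ℤ, (σ, χ) ∈ geog (alpha x τ) ∧ (-σ, χ) ∉ geog (alpha x τ) := by
  refine ⟨exists_gen_dual, fun τ x hτ hx => ?_⟩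
  obtain ⟨ε, hε, h1, h2⟩ := alpha_spec hτ hx
  have h3 : IsCyc (alpha x τ) := Shared.Sing.br_mem_Z.1 h1
  obtain ⟨S, _, _, _, _, _, hS, f, z, h⟩ := good_six
  obtain ⟨μ, F, o, m1, m2, m3, m4, m5⟩ := h.model hS
  obtain ⟨_⟩ := charted_SP hS
  have m6 := m3.smul ε
  rw [mul_one] at m6
  have m7 : IsCyc (ε • μ) := Submodule.smul_mem _ _ m1.1
  obtain ⟨n1, n2, n3, -⟩ := cls_bound (locEuc_SP hS) m7 m2 hε m6
  have n4 := (bPos_le n1 m1.1).trans m5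
  refine ⟨h3, fun h0 => h2.not_B continuous_apply (by rcases hε with rfl | rfl <;> simp)
    (Shared.SingEZ.cf_B _ (Shared.Sing.br_mem_B.2 (by simpa [Hlg] using h0))), _, _,
    ⟨SP S, _, inferInstance, inferInstance, inferInstance, ‹_›, ε • μ, F, o,
      ⟨m7, fun y c hc => (m1.2 y c hc).imp' (· * ε) fun r hr => ?_⟩, m2, h2.hlg h3 m6 m7, rfl⟩, ?_⟩
  · rcases hε with rfl | rfl <;> simpa using hr
  rintro ⟨M, _, _, _, _, _, ν, G, y, k1, k2, k3, k4⟩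
  have hM : Shared.Sing.LocEuc (Fin 4) M := fun y =>
    ⟨(chartAt (EuclideanSpace ℝ (Fin 4)) y).transHomeomorph
      (EuclideanSpace.equiv (Fin 4) ℝ).toHomeomorph, mem_chart_source _ y⟩
  have := locPC_of_locEuc hM
  have := PathConnectedSpace.of_locallyPathConnectedSpace (X := M)
  obtain ⟨-, l2, l3, l4⟩ := cls_bound hM k1.1 k2 hε (h2.pull k3)
  simp only [sig, Prod.mk.injEq] at k4
  rcases hε with rfl | rfl <;> simp only [one_smul, neg_smul, neg_neg] at * <;> omega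

end Pool.Agent.Results.MP_18d288_gt.NotSymmetric
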